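import Pool.Agent.H172R2.UT.TOP
import Pool.Agent.H172R2.UT.GAM
import Pool.Agent.H172R2.UT.ZER
import Pool.Agent.H172R2.UT.ARC
import Pool.Agent.H172R2.UT.GEO
import Pool.Agent.H172R2.UT.PERM
import Pool.Agent.H172R2.UT.SPL
import Pool.Agent.H172R2.UT.NUM
import Pool.Agent.H172R2.UT.CEN
import Pool.Agent.H172R2.UT.CYC
import Pool.Agent.H172R2.UT.SPH
import Pool.Agent.H172R2.UT.TRI
import Pool.Agent.H172R2.UT.TWP
import Pool.Agent.H172R2.UT.LT
import Pool.Agent.H172R2.UT.SEPV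
import Pool.Agent.H172R2.UT.STEP
import Pool.Agent.H172R2.UT.REC
import Pool.Agent.H172R2.UT.CNT
import Pool.Agent.H172R2.UT.FIN
import Pool.Agent.H172R2.UT.MAINT
import Pool.Agent.H172R2.UT.LEXT
import Pool.Agent.H172R2.UT.LLAY
import Pool.Agent.H172R2.UT.LGAM
import Pool.Agent.H172R2.UT.LAFF
import Pool.Agent.H172R2.UT.LTIM
import Pool.Agent.H172R2.UT.LSUP
import Pool.Agent.H172R2.UT.LDRWx
import Pool.Agent.H172R2.UT.LGRE
import Pool.Agent.H172R2.UT.LSTR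
import Pool.Agent.H172R2.UT.LSEL
import Pool.Agent.H172R2.UT.LGEN
import Pool.Agent.H172R2.UT.LINV
import Pool.Agent.H172R2.UT.LFIN
import Pool.Agent.H172R2.UT.LMAIN

/-!
Untangling polygons (MP_09dd0a_co): `fix(C_n) = Θ(n^{2/3})`.

`fixGraph G` is the minimum, over all straight-line drawings of `G` (vertices at distinct points of
the plane), of the largest number of vertices that can keep their position in a crossing-free
redrawing.  The new part is the upper bound, which removes the logarithmic factor from the bound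
`O((n log n)^{2/3})` of Pach and Tardos; the lower bound is Cibulka's theorem.
-/

namespace Pool.Agent.Results.MP_09dd0a_co.UntanglingCyclesOrder

open Pool.Agent.H172R2.UT

theorem result : ∃ c C : ℝ, 0 < c ∧ 0 < C ∧ ∀ n : ℕ, 3 ≤ n →
    c * (n : ℝ) ^ (2/3 : ℝ) ≤ (fixGraph (SimpleGraph.cycleGraph n) : ℝ) ∧
    (fixGraph (SimpleGraph.cycleGraph n) : ℝ) ≤ C * (n : ℝ) ^ (2/3 : ℝ) := by
  obtain ⟨C, hC, h1⟩ : S_MAINT :=
    MAINT_ok (FIN_ok (GEO_ok ZER_ok GAM_ok (ARC_ok TOP_ok GAM_ok))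
      (CNT_ok (REC_ok (STEP_ok (SEPV_ok (LT_ok (SPH_ok (CYC_ok CEN_ok)) TRI_ok TWP_ok)))
        SPL_ok NUM_ok)) PERM_ok)
  obtain ⟨c, hc, h2⟩ : S_LMAIN :=
    LMAIN_ok (LFIN_ok (LDRW_ok (LLAY_ok LEXT_ok) LGAM_ok LAFF_ok LTIM_ok LSUP_ok)
      (LSEL_ok LGRE_ok LSTR_ok) LGEN_ok LINV_ok)
  exact ⟨c, C, hc, hC, fun n hn => ⟨h2 n hn, h1 n hn⟩⟩

end Pool.Agent.Results.MP_09dd0a_co.UntanglingCyclesOrder
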